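import Pool.Agent.Q297.DfI

/-!
Span set statistics of Brownian motion (MP_097655_pr): the Lebesgue measure of the span set, its
first gap and the length of the longest complete excursion all have a diffuse law.
-/

open MeasureTheory ProbabilityTheory Set
open scoped NNReal

namespace Pool.Agent.Results.MP_097655_pr.Diffuse

/-- the span set `{t - s : 0 ≤ s ≤ t ≤ 1, f s = f t}` of a path on `[0,1]` -/
def spanSet (f : ℝ≥0 → ℝ) : Set ℝ :=
  {h | ∃ s t : ℝ≥0, s ≤ t ∧ t ≤ 1 ∧ f s = f t ∧ h = (t : ℝ) - s}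

/-- `S₁`, the Lebesgue measure of the span set -/
noncomputable def S1 (f : ℝ≥0 → ℝ) : ℝ := (volume (spanSet f)).toReal

/-- `T₁ = inf {t > 0 : t ∉ Sp}` -/
noncomputable def T1 (f : ℝ≥0 → ℝ) : ℝ := sInf {t : ℝ | 0 < t ∧ t ∉ spanSet f}

/-- the lengths of the complete excursions, from all levels, up to time `1` -/
def excLengths (f : ℝ≥0 → ℝ) : Set ℝ :=
  {l | ∃ p q : ℝ≥0, p < q ∧ q ≤ 1 ∧ f p = f q ∧ (∀ u, p < u → u < q → f u ≠ f p) ∧ l = (q : ℝ) - p}

/-- `R`, the length of the longest complete excursion up to time `1` -/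
noncomputable def R (f : ℝ≥0 → ℝ) : ℝ := sSup (excLengths f)

/-- **Theorem.** For every Brownian motion none of the three random variables `S₁`, `T₁`, `R` takes
any fixed value with positive probability: all three laws are diffuse. -/
theorem result {Ω : Type*} [MeasurableSpace Ω] (P : Measure Ω) (B : ℝ≥0 → Ω → ℝ)
    (hB : IsBrownianReal B P) (c : ℝ) :
    P {ω | S1 (fun t => B t ω) = c} = 0 ∧
    P {ω | T1 (fun t => B t ω) = c} = 0 ∧
    P {ω | R (fun t => B t ω) = c} = 0 :=
  Q297.Df.final hB c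

end Pool.Agent.Results.MP_097655_pr.Diffuse
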